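import Mathlib

/-!
# Deterministic partially blind counter machines are weaker than deterministic counter machines

The language of the words `a ^ n b ^ m` with `n ≤ m` is accepted by a deterministic realtime machine
with one counter and one reversal, but by no deterministic quasi-realtime partially blind machine.
-/

set_option autoImplicit false

namespace Pool.Agent.Results.MP_24384b_lc.DetBlind

/-- A move of a machine with `k` counters: the target state, whether the head moves to the next cell,
and the changes of the counters (by `1`, `0` or `-1`). -/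
structure Move (Q : Type) (k : ℕ) where
  /-- the target state -/
  target : Q
  /-- whether the head moves to the next cell -/
  right : Bool
  /-- the changes of the counters -/
  change : Fin k → SignType

/-- A one-way multicounter machine over the alphabet `A`. `move q s z m` says that the move `m` may be
made in the state `q` when `s` is scanned, where `z j` tells whether the counter `j` is zero and
`s = none` means that the head is at the right end of the input word. -/
structure Machine (A : Type) where
  /-- the states -/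
  Q : Type
  finQ : Finite Q
  /-- the number of counters -/
  k : ℕ
  /-- the initial state -/
  start : Q
  /-- the final states -/
  final : Set Q
  /-- the moves -/
  move : Q → Option A → (Fin k → Bool) → Move Q k → Prop

/-- A configuration: the state, the part of the input word that starts with the scanned cell, and the
counters. -/
structure Config {A : Type} (M : Machine A) where
  /-- the state -/
  state : M.Q
  /-- the part of the input word that starts with the scanned cell -/
  rest : List A
  /-- the counters -/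
  cnt : Fin M.k → ℕ

/-- The move `m` is possible in the configuration `c` and leads to the configuration `c'`. -/
def Machine.Step {A : Type} (M : Machine A) (c : Config M) (m : Move M.Q M.k) (c' : Config M) :
    Prop :=
  M.move c.state c.rest.head? (fun j => decide (c.cnt j = 0)) m ∧
    c'.state = m.target ∧ (∀ j, (c'.cnt j : ℤ) = (c.cnt j : ℤ) + ((m.change j : SignType) : ℤ)) ∧
    (m.right = true → ∃ a, c.rest = a :: c'.rest) ∧ (m.right = false → c'.rest = c.rest)

/-- There is a computation from `c` to `c'` with the list `l` of moves. -/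
inductive Machine.Comp {A : Type} (M : Machine A) :
    Config M → List (Move M.Q M.k) → Config M → Prop
  | refl (c : Config M) : Machine.Comp M c [] c
  | step (c c' c'' : Config M) (m : Move M.Q M.k) (l : List (Move M.Q M.k)) :
      M.Step c m c' → Machine.Comp M c' l c'' → Machine.Comp M c (m :: l) c''

/-- The initial configuration on the input word `w`. -/
def Machine.init {A : Type} (M : Machine A) (w : List A) : Config M := ⟨M.start, w, fun _ => 0⟩

/-- In every configuration at most one move is possible. -/
def Machine.Deterministic {A : Type} (M : Machine A) : Prop :=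
  ∀ c m m' c' c'', M.Step c m c' → M.Step c m' c'' → m = m'

/-- The moves never depend on whether counters are zero. -/
def Machine.Blind {A : Type} (M : Machine A) : Prop :=
  ∀ q s z z' m, M.move q s z m → M.move q s z' m

/-- There is a bound on the lengths of the stretches of computations during which the head stays on
the same cell. -/
def Machine.QuasiRealtime {A : Type} (M : Machine A) : Prop :=
  ∃ d : ℕ, ∀ w l c l' c', M.Comp (M.init w) l c → M.Comp c l' c' → c'.rest = c.rest → l'.length ≤ d

/-- There are no moves at the right end of the input word. -/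
def Machine.NoEndMoves {A : Type} (M : Machine A) : Prop :=
  ∀ q z m, ¬ M.move q none z m

/-- The number of the changes of direction in a list of changes, where `s` is the last nonzero change
before this list (`0` if there is none). -/
def turns : SignType → List SignType → ℕ
  | _, [] => 0
  | s, x :: l => (if s * x = -1 then 1 else 0) + turns (if x = 0 then s else x) l

/-- The number of reversals in a computation with the list `l` of moves. -/
def reversals {Q : Type} {k : ℕ} (l : List (Move Q k)) : ℕ :=
  ∑ j : Fin k, turns 0 (l.map fun m => m.change j)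

/-- The set of the words that have an accepting computation with at most `c` reversals. -/
def Machine.LR {A : Type} (M : Machine A) (c : ℕ) : Set (List A) :=
  {w | ∃ l x, M.Comp (M.init w) l x ∧ x.rest = [] ∧ x.state ∈ M.final ∧ (∀ j, x.cnt j = 0) ∧
    reversals l ≤ c}

/-- The languages `L_{Rc} (M)` over the alphabet `A` of the deterministic quasi-realtime multicounter
machines `M`, where moves at the right end of the input word are allowed iff `e = true`. -/
def dCounter (e : Bool) (A : Type) (c : ℕ) : Set (Set (List A)) :=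
  {L | ∃ M : Machine A, M.Deterministic ∧ M.QuasiRealtime ∧ (e = false → M.NoEndMoves) ∧
    L = M.LR c}

/-- The languages `L_{Rc} (M)` over the alphabet `A` of the deterministic quasi-realtime partially
blind multicounter machines `M`, where moves at the right end of the input word are allowed iff
`e = true`. -/
def dPBlind (e : Bool) (A : Type) (c : ℕ) : Set (Set (List A)) :=
  {L | ∃ M : Machine A, M.Deterministic ∧ M.Blind ∧ M.QuasiRealtime ∧ (e = false → M.NoEndMoves) ∧
    L = M.LR c}

/-! ## The language -/

/-- The word `a ^ n b ^ m`. -/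
def word (n m : ℕ) : List Bool := List.replicate n true ++ List.replicate m false

/-- The language of the words `a ^ n b ^ m` with `n ≤ m`. -/
def lang : Set (List Bool) := {w | ∃ n m, n ≤ m ∧ w = word n m}

/-! ## Reversals -/

/-- The last nonzero change. -/
def lastDir : SignType → List SignType → SignType
  | s, [] => s
  | s, x :: l => lastDir (if x = 0 then s else x) l

theorem turns_append (s : SignType) (l l' : List SignType) :
    turns s (l ++ l') = turns s l + turns (lastDir s l) l' := by
  induction l generalizing s with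
  | nil => simp [turns, lastDir]
  | cons x l ih =>
    rw [List.cons_append, turns, turns, lastDir, ih]
    ring

theorem reversals_append {Q : Type} {k : ℕ} (l l' : List (Move Q k)) :
    reversals (l ++ l') = reversals l +
      ∑ j : Fin k, turns (lastDir 0 (l.map fun m => m.change j)) (l'.map fun m => m.change j) := by
  unfold reversals
  rw [← Finset.sum_add_distrib]
  exact Finset.sum_congr rfl fun j _ => by rw [List.map_append, turns_append]

/-! ## The machine with a counter -/

/-- The move that reads a letter `a`. -/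
def up : Move Bool 1 := ⟨false, true, fun _ => 1⟩

/-- The move that reads a letter `b` when the counter is positive. -/
def down : Move Bool 1 := ⟨true, true, fun _ => -1⟩

/-- The move that reads a letter `b` when the counter is zero. -/
def idle : Move Bool 1 := ⟨true, true, fun _ => 0⟩

/-- The moves of the machine. -/
def mv : Bool → Option Bool → (Fin 1 → Bool) → Move Bool 1 → Prop
  | false, some true, _, m => m = up
  | _, some false, z, m => (z 0 = true ∧ m = idle) ∨ (z 0 = false ∧ m = down)
  | true, some true, _, _ => False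
  | _, none, _, _ => False

/-- The deterministic realtime machine with one counter that accepts the language. -/
@[reducible] def M₀ : Machine Bool where
  Q := Bool
  finQ := inferInstance
  k := 1
  start := false
  final := Set.univ
  move := mv

theorem M₀_right {c c' : Config M₀} {m : Move Bool 1} (h : M₀.Step c m c') : m.right = true := by
  obtain ⟨h1, -⟩ := h
  rcases c with ⟨q, rest, v⟩
  change mv q rest.head? _ m at h1
  rcases q with _ | _ <;> rcases rest with _ | ⟨_ | _, rest⟩
  all_goals first
    | exact h1.elim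
    | (rcases h1 with ⟨-, rfl⟩ | ⟨-, rfl⟩ <;> rfl)

theorem M₀_deterministic : M₀.Deterministic := by
  rintro ⟨q, rest, v⟩ m m' c' c'' ⟨h1, -⟩ ⟨h2, -⟩
  change mv q rest.head? _ m at h1
  change mv q rest.head? _ m' at h2
  rcases q with _ | _ <;> rcases rest with _ | ⟨_ | _, rest⟩
  all_goals first
    | exact h1.elim
    | (rcases h1 with ⟨h3, rfl⟩ | ⟨h3, rfl⟩ <;> rcases h2 with ⟨h4, rfl⟩ | ⟨h4, rfl⟩
       · rfl
       · rw [h3] at h4; exact absurd h4 (by decide)
       · rw [h3] at h4; exact absurd h4 (by decide)
       · rfl)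
    | (obtain rfl : m = up := h1; obtain rfl : m' = up := h2; rfl)

theorem rest_le {A : Type} {M : Machine A} {c c' : Config M} {l : List (Move M.Q M.k)}
    (h : M.Comp c l c') : c'.rest.length ≤ c.rest.length := by
  induction h with
  | refl c => exact le_rfl
  | step c c' c'' m l h _ ih =>
    refine ih.trans ?_
    obtain ⟨-, -, -, h1, h2⟩ := h
    cases hm : m.right
    · rw [h2 hm]
    · obtain ⟨a, ha⟩ := h1 hm
      rw [ha]
      simp

theorem M₀_quasiRealtime : M₀.QuasiRealtime := by
  refine ⟨0, fun w l c l' c' _ h hr => ?_⟩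
  cases h with
  | refl => simp
  | step _ c₁ _ m l h h' =>
    exfalso
    obtain ⟨a, ha⟩ := h.2.2.2.1 (M₀_right h)
    have := rest_le h'
    rw [hr, ha] at this
    simp at this

theorem M₀_noEndMoves : M₀.NoEndMoves := by
  intro q z m h
  cases q <;> exact h

/-- A computation from the second phase. -/
theorem M₀_phase2 {c c' : Config M₀} {l : List (Move Bool 1)} (h : M₀.Comp c l c')
    (hr : c'.rest = []) (h0 : c'.cnt 0 = 0) (hc : c.state = true) :
    ∃ m, c.rest = List.replicate m false ∧ c.cnt 0 ≤ m := by
  induction h with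
  | refl c => exact ⟨0, by rw [hr]; rfl, by rw [h0]⟩
  | step c c₁ c₂ m l hs _ ih =>
    rcases c with ⟨q, rest, v⟩
    obtain rfl : q = true := hc
    obtain ⟨h1, h2, h3, h4, h5⟩ := id hs
    obtain ⟨a, ha⟩ := h4 (M₀_right hs)
    dsimp only at ha h1 h3
    subst ha
    change mv true (some a) _ m at h1
    rcases a with _ | _
    · have hv := h3 0
      rcases h1 with ⟨hz, rfl⟩ | ⟨hz, rfl⟩
      · obtain ⟨m, hm, hm'⟩ := ih hr h0 h2
        refine ⟨m + 1, by rw [List.replicate_succ, hm], ?_⟩
        have hz' : v 0 = 0 := by simpa using hz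
        dsimp only
        omega
      · obtain ⟨m, hm, hm'⟩ := ih hr h0 h2
        refine ⟨m + 1, by rw [List.replicate_succ, hm], ?_⟩
        simp [down] at hv
        dsimp only
        omega
    · exact h1.elim

theorem M₀_phase1 {c c' : Config M₀} {l : List (Move Bool 1)} (h : M₀.Comp c l c')
    (hr : c'.rest = []) (h0 : c'.cnt 0 = 0) (hc : c.state = false) :
    ∃ n m, c.rest = word n m ∧ c.cnt 0 + n ≤ m := by
  induction h with
  | refl c => exact ⟨0, 0, by rw [hr]; rfl, by rw [h0]⟩
  | step c c₁ c₂ m l hs hcomp ih =>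
    rcases c with ⟨q, rest, v⟩
    obtain rfl : q = false := hc
    obtain ⟨h1, h2, h3, h4, h5⟩ := id hs
    obtain ⟨a, ha⟩ := h4 (M₀_right hs)
    dsimp only at ha h1 h3
    subst ha
    change mv false (some a) _ m at h1
    rcases a with _ | _
    · have hv := h3 0
      rcases h1 with ⟨hz, rfl⟩ | ⟨hz, rfl⟩
      · obtain ⟨m, hm, hm'⟩ := M₀_phase2 hcomp hr h0 h2
        refine ⟨0, m + 1, by rw [word, List.replicate_succ, hm]; rfl, ?_⟩
        have hz' : v 0 = 0 := by simpa using hz
        dsimp only
        omega
      · obtain ⟨m, hm, hm'⟩ := M₀_phase2 hcomp hr h0 h2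
        refine ⟨0, m + 1, by rw [word, List.replicate_succ, hm]; rfl, ?_⟩
        simp [down] at hv
        dsimp only
        omega
    · obtain rfl : m = up := h1
      have hv := h3 0
      obtain ⟨n, m, hm, hm'⟩ := ih hr h0 h2
      refine ⟨n + 1, m, by rw [word, List.replicate_succ, hm]; rfl, ?_⟩
      simp [up] at hv
      dsimp only
      omega

theorem M₀_comp2 (q : Bool) (v : Fin 1 → ℕ) (m : ℕ) (hv : v 0 ≤ m) :
    ∃ q', M₀.Comp ⟨q, List.replicate m false, v⟩
      (List.replicate (v 0) down ++ List.replicate (m - v 0) idle) ⟨q', [], fun _ => 0⟩ := by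
  induction m generalizing q v with
  | zero =>
    have h0 : v 0 = 0 := by omega
    have hv' : v = fun _ => 0 := by
      funext j
      rw [Subsingleton.elim j 0, h0]
    subst hv'
    exact ⟨q, Machine.Comp.refl _⟩
  | succ m ih =>
    rcases Nat.eq_zero_or_pos (v 0) with h0 | h0
    · have hv' : v = fun _ => 0 := by
        funext j
        rw [Subsingleton.elim j 0, h0]
      subst hv'
      obtain ⟨q', hq'⟩ := ih true (fun _ => 0) (Nat.zero_le _)
      refine ⟨q', ?_⟩
      rw [List.replicate_zero, List.nil_append, Nat.sub_zero] at hq' ⊢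
      rw [List.replicate_succ, List.replicate_succ]
      refine Machine.Comp.step (M := M₀) _ ⟨true, List.replicate m false, fun _ => 0⟩ _ idle _ ?_ hq'
      refine ⟨?_, rfl, fun j => by simp [idle], fun _ => ⟨_, rfl⟩, fun h => absurd h (by decide)⟩
      change mv q (some false) _ idle
      cases q <;> exact Or.inl ⟨rfl, rfl⟩
    · obtain ⟨q', hq'⟩ := ih true (fun _ => v 0 - 1) (by omega)
      refine ⟨q', ?_⟩
      obtain ⟨t, ht⟩ : ∃ t, v 0 = t + 1 := ⟨v 0 - 1, by omega⟩
      rw [ht] at hq' ⊢
      rw [show t + 1 - 1 = t by omega] at hq'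
      rw [show m + 1 - (t + 1) = m - t by omega, List.replicate_succ, List.replicate_succ,
        List.cons_append]
      refine Machine.Comp.step (M := M₀) _ ⟨true, List.replicate m false, fun _ => t⟩ _ down _ ?_ hq'
      refine ⟨?_, rfl, fun j => ?_, fun _ => ⟨_, rfl⟩, fun h => absurd h (by decide)⟩
      · change mv q (some false) _ down
        have : decide (v 0 = 0) = false := by rw [ht]; rfl
        cases q <;> exact Or.inr ⟨this, rfl⟩
      · rw [Subsingleton.elim j 0]
        simp [down, ht]

theorem M₀_comp1 (n : ℕ) (w : List Bool) (t : ℕ) :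
    M₀.Comp ⟨false, List.replicate n true ++ w, fun _ => t⟩ (List.replicate n up)
      ⟨false, w, fun _ => t + n⟩ := by
  induction n generalizing t with
  | zero => exact Machine.Comp.refl _
  | succ n ih =>
    rw [List.replicate_succ, List.replicate_succ]
    have h := ih (t + 1)
    rw [show t + 1 + n = t + (n + 1) by ring] at h
    refine Machine.Comp.step (M := M₀) _ ⟨false, List.replicate n true ++ w, fun _ => t + 1⟩ _ up _
      ?_ h
    exact ⟨rfl, rfl, fun j => by simp [up], fun _ => ⟨_, rfl⟩, fun h => absurd h (by decide)⟩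

theorem comp_append {A : Type} {M : Machine A} {c c' c'' : Config M} {l l' : List (Move M.Q M.k)}
    (h : M.Comp c l c') (h' : M.Comp c' l' c'') : M.Comp c (l ++ l') c'' := by
  induction h with
  | refl c => exact h'
  | step c c₁ c₂ m l hs _ ih => exact Machine.Comp.step _ _ _ _ _ hs (ih h')

theorem turns_zero (s : SignType) (t : ℕ) : turns s (List.replicate t 0) = 0 := by
  induction t generalizing s with
  | zero => rfl
  | succ t ih => rw [List.replicate_succ, turns, ih]; simp

theorem turns_down (s : SignType) (n t : ℕ) :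
    turns s (List.replicate n (-1) ++ List.replicate t 0) ≤ 1 ∧
      turns (-1) (List.replicate n (-1) ++ List.replicate t 0) = 0 := by
  have h : ∀ n, turns (-1) (List.replicate n (-1) ++ List.replicate t 0) = 0 := by
    intro n
    induction n with
    | zero => exact turns_zero _ _
    | succ n ih =>
      rw [List.replicate_succ, List.cons_append, turns,
        if_neg (by decide : ¬ ((-1 : SignType) * (-1) = -1)),
        if_neg (by decide : ¬ ((-1 : SignType) = 0)), zero_add]
      exact ih
  refine ⟨?_, h n⟩
  cases n with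
  | zero => exact (turns_zero _ _).le.trans (Nat.zero_le _)
  | succ n =>
    rw [List.replicate_succ, List.cons_append, turns]
    rw [if_neg (by decide : ¬ ((-1 : SignType) = 0)), h]
    split_ifs <;> simp

theorem turns_up (n : ℕ) (l : List SignType) (hl : ∀ s, turns s l ≤ 1) :
    turns 0 (List.replicate n 1 ++ l) ≤ 1 := by
  have h : ∀ n, turns 1 (List.replicate n 1 ++ l) ≤ 1 := by
    intro n
    induction n with
    | zero => exact hl _
    | succ n ih =>
      rw [List.replicate_succ, List.cons_append, turns]
      rw [if_neg (by decide : ¬ ((1 : SignType) * 1 = -1)),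
        if_neg (by decide : ¬ ((1 : SignType) = 0)), zero_add]
      exact ih
  cases n with
  | zero => exact hl _
  | succ n =>
    rw [List.replicate_succ, List.cons_append, turns]
    rw [if_neg (by decide : ¬ ((0 : SignType) * 1 = -1)),
      if_neg (by decide : ¬ ((1 : SignType) = 0)), zero_add]
    exact h n

theorem M₀_LR {c : ℕ} (hc : 1 ≤ c) : M₀.LR c = lang := by
  apply Set.Subset.antisymm
  · rintro w ⟨l, x, h, hr, -, h0, -⟩
    obtain ⟨n, m, h1, h2⟩ := M₀_phase1 h hr (h0 0) rfl
    refine ⟨n, m, ?_, h1⟩
    have : (M₀.init w).cnt 0 = 0 := rfl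
    omega
  · rintro w ⟨n, m, hnm, rfl⟩
    have h1 := M₀_comp1 n (List.replicate m false) 0
    rw [zero_add] at h1
    obtain ⟨q', h2⟩ := M₀_comp2 false (fun _ => n) m hnm
    refine ⟨_, _, comp_append h1 h2, rfl, Set.mem_univ _, fun _ => rfl, le_trans ?_ hc⟩
    have h3 : reversals (List.replicate n up ++ (List.replicate n down ++
        List.replicate (m - n) idle)) = turns 0 (List.replicate n 1 ++ (List.replicate n (-1) ++
        List.replicate (m - n) 0)) := by
      unfold reversals
      rw [Fin.sum_univ_one]
      simp [up, down, idle]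
    change reversals (List.replicate n up ++ (List.replicate n down ++
        List.replicate (m - n) idle)) ≤ 1
    rw [h3]
    exact turns_up n _ fun s => (turns_down s n _).1

/-! ## Blind machines -/

/-- The move `m` is possible when `s` is scanned, and leads from `x` to `y`, where `x` and `y`
consist of a state and values of the counters. -/
def Loc {A : Type} (M : Machine A) (s : Option A) (m : Move M.Q M.k)
    (x y : M.Q × (Fin M.k → ℕ)) : Prop :=
  M.move x.1 s (fun j => decide (x.2 j = 0)) m ∧ y.1 = m.target ∧
    ∀ j, (y.2 j : ℤ) = (x.2 j : ℤ) + ((m.change j : SignType) : ℤ)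

/-- A computation that reads the word `u` and ends when the last letter has been read. -/
inductive Cross {A : Type} (M : Machine A) :
    List A → List (Move M.Q M.k) → M.Q × (Fin M.k → ℕ) → M.Q × (Fin M.k → ℕ) → Prop
  | nil (x : M.Q × (Fin M.k → ℕ)) : Cross M [] [] x x
  | stay (a : A) (u : List A) (m : Move M.Q M.k) (l : List (Move M.Q M.k))
      (x y z : M.Q × (Fin M.k → ℕ)) : Loc M (some a) m x y → m.right = false →
      Cross M (a :: u) l y z → Cross M (a :: u) (m :: l) x z
  | right (a : A) (u : List A) (m : Move M.Q M.k) (l : List (Move M.Q M.k))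
      (x y z : M.Q × (Fin M.k → ℕ)) : Loc M (some a) m x y → m.right = true →
      Cross M u l y z → Cross M (a :: u) (m :: l) x z

theorem comp_of_cross {A : Type} {M : Machine A} {u : List A} {l : List (Move M.Q M.k)}
    {x y : M.Q × (Fin M.k → ℕ)} (h : Cross M u l x y) (v : List A) :
    M.Comp ⟨x.1, u ++ v, x.2⟩ l ⟨y.1, v, y.2⟩ := by
  induction h with
  | nil x => exact Machine.Comp.refl _
  | stay a u m l x y z hl hm _ ih =>
    exact Machine.Comp.step _ ⟨y.1, (a :: u) ++ v, y.2⟩ _ _ _
      ⟨hl.1, hl.2.1, hl.2.2, fun h => by rw [hm] at h; exact absurd h (by decide), fun _ => rfl⟩ ih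
  | right a u m l x y z hl hm _ ih =>
    exact Machine.Comp.step _ ⟨y.1, u ++ v, y.2⟩ _ _ _
      ⟨hl.1, hl.2.1, hl.2.2, fun _ => ⟨a, rfl⟩, fun h => by rw [hm] at h; exact absurd h (by decide)⟩
      ih

theorem cross_of_comp {A : Type} {M : Machine A} {l : List (Move M.Q M.k)} {c c' : Config M}
    (h : M.Comp c l c') (u v : List A) (hc : c.rest = u ++ v) (hc' : c'.rest.length ≤ v.length) :
    ∃ l₁ l₂ y, l = l₁ ++ l₂ ∧ Cross M u l₁ (c.state, c.cnt) y ∧ M.Comp ⟨y.1, v, y.2⟩ l₂ c' := by
  induction h generalizing u with
  | refl c =>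
    have hu : u = [] := by
      rw [hc, List.length_append] at hc'
      exact List.length_eq_zero_iff.1 (by omega)
    subst hu
    refine ⟨[], [], (c.state, c.cnt), rfl, Cross.nil _, ?_⟩
    rw [List.nil_append] at hc
    rw [← hc]
    exact Machine.Comp.refl _
  | step c c₁ c₂ m l hs hcomp ih =>
    rcases u with _ | ⟨a, u⟩
    · rw [List.nil_append] at hc
      refine ⟨[], m :: l, (c.state, c.cnt), rfl, Cross.nil _, ?_⟩
      rw [← hc]
      exact Machine.Comp.step _ _ _ _ _ hs hcomp
    · have hloc : Loc M (some a) m (c.state, c.cnt) (c₁.state, c₁.cnt) := by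
        refine ⟨?_, hs.2.1, hs.2.2.1⟩
        have h := hs.1
        rw [hc] at h
        exact h
      cases hm : m.right
      · obtain ⟨l₁, l₂, y, rfl, h1, h2⟩ := ih (a :: u) (by rw [hs.2.2.2.2 hm, hc]) hc'
        exact ⟨m :: l₁, l₂, y, rfl, Cross.stay _ _ _ _ _ _ _ hloc hm h1, h2⟩
      · obtain ⟨b, hb⟩ := hs.2.2.2.1 hm
        rw [hc, List.cons_append, List.cons_eq_cons] at hb
        obtain ⟨l₁, l₂, y, rfl, h1, h2⟩ := ih u hb.2.symm hc'
        exact ⟨m :: l₁, l₂, y, rfl, Cross.right _ _ _ _ _ _ _ hloc hm h1, h2⟩

theorem cross_append {A : Type} {M : Machine A} {u v : List A} {l : List (Move M.Q M.k)}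
    {x z : M.Q × (Fin M.k → ℕ)} (h : Cross M (u ++ v) l x z) :
    ∃ l₁ l₂ y, l = l₁ ++ l₂ ∧ Cross M u l₁ x y ∧ Cross M v l₂ y z := by
  generalize hw : u ++ v = w at h
  induction h generalizing u with
  | nil x =>
    obtain ⟨rfl, rfl⟩ := List.append_eq_nil_iff.1 hw
    exact ⟨[], [], x, rfl, Cross.nil x, Cross.nil x⟩
  | stay a w m l x y z hl hm hc ih =>
    rcases u with _ | ⟨b, u⟩
    · rw [List.nil_append] at hw
      exact ⟨[], m :: l, x, rfl, Cross.nil x, hw ▸ Cross.stay _ _ _ _ _ _ _ hl hm hc⟩
    · obtain ⟨l₁, l₂, y', rfl, h1, h2⟩ := ih hw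
      rw [List.cons_append, List.cons_eq_cons] at hw
      obtain ⟨rfl, rfl⟩ := hw
      exact ⟨m :: l₁, l₂, y', rfl, Cross.stay _ _ _ _ _ _ _ hl hm h1, h2⟩
  | right a w m l x y z hl hm hc ih =>
    rcases u with _ | ⟨b, u⟩
    · rw [List.nil_append] at hw
      exact ⟨[], m :: l, x, rfl, Cross.nil x, hw ▸ Cross.right _ _ _ _ _ _ _ hl hm hc⟩
    · rw [List.cons_append, List.cons_eq_cons] at hw
      obtain ⟨rfl, hw⟩ := hw
      obtain ⟨l₁, l₂, y', rfl, h1, h2⟩ := ih hw
      exact ⟨m :: l₁, l₂, y', rfl, Cross.right _ _ _ _ _ _ _ hl hm h1, h2⟩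

theorem move_unique {A : Type} {M : Machine A} (hd : M.Deterministic) (hb : M.Blind) {q : M.Q}
    {a : A} {z z' : Fin M.k → Bool} {m m' : Move M.Q M.k} (h : M.move q (some a) z m)
    (h' : M.move q (some a) z' m') : m = m' := by
  have key : ∀ (z : Fin M.k → Bool) (m : Move M.Q M.k), M.move q (some a) z m →
      ∃ c', M.Step ⟨q, [a], fun _ => 1⟩ m c' := by
    intro z m h
    refine ⟨⟨m.target, if m.right = true then [] else [a],
      fun j => (1 + ((m.change j : SignType) : ℤ)).toNat⟩, hb _ _ _ _ _ h, rfl, fun j => ?_,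
      fun h => ⟨a, by simp [h]⟩, fun h => by simp [h]⟩
    dsimp only
    rw [Int.toNat_of_nonneg]
    · simp
    · cases m.change j <;> simp
  obtain ⟨c, hc⟩ := key z m h
  obtain ⟨c', hc'⟩ := key z' m' h'
  exact hd _ _ _ _ _ hc hc'

theorem cross_unique {A : Type} {M : Machine A} (hd : M.Deterministic) (hb : M.Blind) {u : List A}
    {l l' : List (Move M.Q M.k)} {x y x' y' : M.Q × (Fin M.k → ℕ)} (h : Cross M u l x y)
    (h' : Cross M u l' x' y') (hx : x.1 = x'.1) :
    l = l' ∧ y.1 = y'.1 ∧ ∀ j, (y.2 j : ℤ) - x.2 j = y'.2 j - x'.2 j := by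
  induction h generalizing l' x' y' with
  | nil x =>
    cases h'
    exact ⟨rfl, hx, fun j => by ring⟩
  | stay a u m l x y z hl hm _ ih =>
    cases h' with
    | stay _ _ m' l' _ y₁ _ hl' hm' hc' =>
      have hmm : m = m' := move_unique hd hb hl.1 (hx ▸ hl'.1)
      subst hmm
      obtain ⟨h1, h2, h3⟩ := ih hc' (hl.2.1.trans hl'.2.1.symm)
      refine ⟨by rw [h1], h2, fun j => ?_⟩
      have := h3 j
      have h4 := hl.2.2 j
      have h5 := hl'.2.2 j
      omega
    | right _ _ m' l' _ y₁ _ hl' hm' hc' =>
      have hmm : m = m' := move_unique hd hb hl.1 (hx ▸ hl'.1)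
      subst hmm
      rw [hm] at hm'
      exact absurd hm' (by decide)
  | right a u m l x y z hl hm _ ih =>
    cases h' with
    | right _ _ m' l' _ y₁ _ hl' hm' hc' =>
      have hmm : m = m' := move_unique hd hb hl.1 (hx ▸ hl'.1)
      subst hmm
      obtain ⟨h1, h2, h3⟩ := ih hc' (hl.2.1.trans hl'.2.1.symm)
      refine ⟨by rw [h1], h2, fun j => ?_⟩
      have := h3 j
      have h4 := hl.2.2 j
      have h5 := hl'.2.2 j
      omega
    | stay _ _ m' l' _ y₁ _ hl' hm' hc' =>
      have hmm : m = m' := move_unique hd hb hl.1 (hx ▸ hl'.1)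
      subst hmm
      rw [hm] at hm'
      exact absurd hm' (by decide)

theorem cnt_le {A : Type} {M : Machine A} {l : List (Move M.Q M.k)} {c c' : Config M}
    (h : M.Comp c l c') (j : Fin M.k) : c.cnt j ≤ c'.cnt j + l.length := by
  induction h with
  | refl c => simp
  | step c c₁ c₂ m l hs _ ih =>
    have h := hs.2.2.1 j
    have h' : (-1 : ℤ) ≤ ((m.change j : SignType) : ℤ) := by
      cases m.change j <;> simp
    rw [List.length_cons]
    omega

/-- The effect of reading a letter is determined by the state. -/
theorem exists_effect {A : Type} {M : Machine A} (hd : M.Deterministic) (hb : M.Blind) (a : A) :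
    ∃ (g : M.Q → M.Q) (e : M.Q → Fin M.k → ℤ), ∀ l x y, Cross M [a] l x y →
      y.1 = g x.1 ∧ ∀ j, (y.2 j : ℤ) = x.2 j + e x.1 j := by
  classical
  have h : ∀ q : M.Q, ∃ (q' : M.Q) (e : Fin M.k → ℤ), ∀ l x y, x.1 = q → Cross M [a] l x y →
      y.1 = q' ∧ ∀ j, (y.2 j : ℤ) = x.2 j + e j := by
    intro q
    by_cases hq : ∃ l x y, x.1 = q ∧ Cross M [a] l x y
    · obtain ⟨l, x, y, hx, hc⟩ := hq
      refine ⟨y.1, fun j => y.2 j - x.2 j, fun l' x' y' hx' hc' => ?_⟩
      obtain ⟨-, h2, h3⟩ := cross_unique hd hb hc' hc (hx'.trans hx.symm)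
      refine ⟨h2, fun j => ?_⟩
      have := h3 j
      dsimp only
      omega
    · exact ⟨q, fun _ => 0, fun l x y hx hc => (hq ⟨l, x, y, hx, hc⟩).elim⟩
  choose g e hge using h
  exact ⟨g, e, fun l x y hc => hge x.1 l x y rfl hc⟩

theorem cross_replicate {A : Type} {M : Machine A} {a : A} {g : M.Q → M.Q}
    {e : M.Q → Fin M.k → ℤ} (hge : ∀ l x y, Cross M [a] l x y →
      y.1 = g x.1 ∧ ∀ j, (y.2 j : ℤ) = x.2 j + e x.1 j) (m : ℕ) {l : List (Move M.Q M.k)}
    {x y : M.Q × (Fin M.k → ℕ)} (h : Cross M (List.replicate m a) l x y) (j : Fin M.k) :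
    (y.2 j : ℤ) = x.2 j + ∑ t ∈ Finset.range m, e (g^[t] x.1) j := by
  induction m generalizing l x with
  | zero =>
    cases h
    simp
  | succ m ih =>
    rw [List.replicate_succ, ← List.singleton_append] at h
    obtain ⟨l₁, l₂, z, -, h1, h2⟩ := cross_append h
    obtain ⟨h3, h4⟩ := hge _ _ _ h1
    have h5 := ih h2
    rw [h4 j, h3] at h5
    rw [h5, Finset.sum_range_succ']
    simp only [Function.iterate_succ_apply, Function.iterate_zero, id_eq]
    ring

/-- Sums along a periodic orbit. -/
theorem sum_period (f : ℕ → ℤ) (i p : ℕ) (hf : ∀ t, i ≤ t → f (t + p) = f t) (r : ℕ) :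
    ∑ t ∈ Finset.range (i + r * p), f t =
      ∑ t ∈ Finset.range i, f t + r * ∑ t ∈ Finset.range p, f (i + t) := by
  induction r with
  | zero => simp
  | succ r ih =>
    rw [show i + (r + 1) * p = (i + r * p) + p by ring, Finset.sum_range_add, ih]
    have h : ∀ r t, f (i + r * p + t) = f (i + t) := by
      intro r t
      induction r with
      | zero => simp
      | succ r ih' =>
        rw [show i + (r + 1) * p + t = (i + r * p + t) + p by ring, hf _ (by omega), ih']
    rw [Finset.sum_congr rfl fun t _ => h r t]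
    push_cast
    ring

theorem not_blind {M : Machine Bool} (hd : M.Deterministic) (hb : M.Blind) (hq : M.QuasiRealtime)
    (c : ℕ) (hL : M.LR c = lang) : False := by
  classical
  obtain ⟨d, hd'⟩ := hq
  have := M.finQ
  set x₀ : M.Q × (Fin M.k → ℕ) := (M.start, fun _ => 0) with hx₀
  have hword : ∀ n m, n ≤ m → word n m ∈ M.LR c := fun n m h => by
    rw [hL]
    exact ⟨n, m, h, rfl⟩
  -- the computation on the block of letters `a`
  have h1 : ∀ n, ∃ l x, Cross M (List.replicate n true) l x₀ x := by
    intro n
    obtain ⟨l, x, h1, h2, -⟩ := hword n n le_rfl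
    obtain ⟨l₁, l₂, y, -, h3, -⟩ := cross_of_comp h1 _ _ rfl (by rw [h2]; simp)
    exact ⟨l₁, y, h3⟩
  choose l x hx using h1
  have h2 : ∀ n m, n ≤ m → ∃ l' c', M.Comp ⟨(x n).1, List.replicate m false, (x n).2⟩ l' c' ∧
      c'.rest = [] ∧ c'.state ∈ M.final ∧ (∀ j, c'.cnt j = 0) ∧ reversals (l n ++ l') ≤ c := by
    intro n m hnm
    obtain ⟨l₀, c', h1, h2, h3, h4, h5⟩ := hword n m hnm
    obtain ⟨l₁, l₂, y, rfl, h6, h7⟩ := cross_of_comp h1 _ _ rfl (by rw [h2]; simp)
    obtain ⟨h8, h9, h10⟩ := cross_unique hd hb (hx n) h6 rfl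
    have h11 : x n = y := by
      refine Prod.ext h9 (funext fun j => ?_)
      have := h10 j
      simp only [hx₀, Machine.init] at this
      omega
    refine ⟨l₂, c', ?_, h2, h3, h4, ?_⟩
    · rw [h11]; exact h7
    · rw [h8]; exact h5
  obtain ⟨g, e, hge⟩ := exists_effect hd hb false
  -- bounds on the counters at the end of the block of letters `b`
  have h3 : ∀ n m, n ≤ m → ∀ j,
      0 ≤ ((x n).2 j : ℤ) + ∑ t ∈ Finset.range m, e (g^[t] (x n).1) j ∧
      ((x n).2 j : ℤ) + ∑ t ∈ Finset.range m, e (g^[t] (x n).1) j ≤ d := by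
    intro n m hnm j
    obtain ⟨l', c', h1, h2, h3, h4, -⟩ := h2 n m hnm
    obtain ⟨l₁, l₂, y, rfl, h5, h6⟩ := cross_of_comp h1 (List.replicate m false) []
      (by simp) (by rw [h2])
    have h7 := cross_replicate hge m h5 j
    dsimp only at h7
    rw [← h7]
    refine ⟨by positivity, ?_⟩
    have h8 := cnt_le h6 j
    rw [h4 j] at h8
    have h9 : M.Comp (M.init (word n m)) (l n ++ l₁) ⟨y.1, [], y.2⟩ := by
      refine comp_append (comp_of_cross (hx n) (List.replicate m false)) ?_
      have h10 := comp_of_cross h5 []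
      rw [List.append_nil] at h10
      exact h10
    have h10 := hd' _ _ _ _ _ h9 h6 h2
    dsimp only at h8
    have : y.2 j ≤ d := by omega
    exact_mod_cast this
  -- infinitely many blocks lead to the same state
  obtain ⟨q, hq⟩ := Finite.exists_infinite_fiber (fun n => (x n).1)
  have hq' : {n | (x n).1 = q}.Infinite := Set.infinite_coe_iff.1 hq
  obtain ⟨i, i', hii', hi⟩ : ∃ i i', i < i' ∧ g^[i] q = g^[i'] q := by
    obtain ⟨i, i', h1, h2⟩ := Finite.exists_ne_map_eq_of_infinite (fun i => g^[i] q)
    rcases lt_or_gt_of_ne h1 with h | h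
    · exact ⟨i, i', h, h2⟩
    · exact ⟨i', i, h, h2.symm⟩
  have hper : ∀ t, i ≤ t → g^[t + (i' - i)] q = g^[t] q := by
    intro t ht
    obtain ⟨s, rfl⟩ := Nat.exists_eq_add_of_le ht
    rw [show i + s + (i' - i) = s + i' by omega, show i + s = s + i by omega,
      Function.iterate_add_apply, Function.iterate_add_apply, hi]
  have h4 : ∀ n, (x n).1 = q → ∀ j,
      ((x n).2 j : ℤ) ≤ d - ∑ t ∈ Finset.range i, e (g^[t] q) j := by
    intro n hn j
    set E := ∑ t ∈ Finset.range i, e (g^[t] q) j with hE
    set D := ∑ t ∈ Finset.range (i' - i), e (g^[i + t] q) j with hD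
    have h5 : ∀ r : ℕ, n ≤ r → 0 ≤ ((x n).2 j : ℤ) + (E + r * D) ∧
        ((x n).2 j : ℤ) + (E + r * D) ≤ d := by
      intro r hr
      have h6 : n ≤ i + r * (i' - i) := by
        have : r * 1 ≤ r * (i' - i) := Nat.mul_le_mul_left r (by omega)
        omega
      have h7 := h3 n _ h6 j
      rw [hn] at h7
      rw [sum_period (fun t => e (g^[t] q) j) i (i' - i) (fun t ht => by
        rw [hper t ht]) r] at h7
      exact h7
    have hD0 : D = 0 := by
      rcases lt_trichotomy D 0 with h | h | h
      · exfalso
        have h6 := (h5 (n + (((x n).2 j : ℤ) + (E + n * D)).toNat + 1) (by omega)).1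
        have h7 := (h5 n le_rfl).1
        push_cast at h6
        rw [Int.toNat_of_nonneg h7] at h6
        nlinarith
      · exact h
      · exfalso
        have h6 := (h5 (n + d + 1) (by omega)).2
        have h7 := (h5 n le_rfl).1
        push_cast at h6
        nlinarith
    have h6 := (h5 n le_rfl).2
    rw [hD0] at h6
    linarith
  -- two blocks lead to the same configuration
  obtain ⟨B, hB⟩ : ∃ B : ℕ, ∀ n, (x n).1 = q → ∀ j, (x n).2 j ≤ B := by
    refine ⟨∑ j, (d - ∑ t ∈ Finset.range i, e (g^[t] q) j).toNat, fun n hn j => ?_⟩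
    have h5 := h4 n hn j
    refine le_trans (by omega : (x n).2 j ≤ (d - ∑ t ∈ Finset.range i, e (g^[t] q) j).toNat) ?_
    exact Finset.single_le_sum (f := fun j => (d - ∑ t ∈ Finset.range i, e (g^[t] q) j).toNat)
      (fun _ _ => Nat.zero_le _) (Finset.mem_univ j)
  have hrev : ∀ n, reversals (l n) ≤ c := by
    intro n
    obtain ⟨l', c', -, -, -, -, h5⟩ := h2 n n le_rfl
    rw [reversals_append] at h5
    omega
  let F : ℕ → (Fin M.k → ℕ) × ℕ × (Fin M.k → SignType) := fun n =>
    ((x n).2, reversals (l n), fun j => lastDir 0 ((l n).map fun m => m.change j))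
  have hfin : ({f : Fin M.k → ℕ | ∀ j, f j ∈ Set.Iic B} ×ˢ
      (Set.Iic c ×ˢ (Set.univ : Set (Fin M.k → SignType)))).Finite :=
    (Set.Finite.pi' fun _ => Set.finite_Iic B).prod ((Set.finite_Iic c).prod Set.finite_univ)
  have hmaps : Set.MapsTo F {n | (x n).1 = q} ({f : Fin M.k → ℕ | ∀ j, f j ∈ Set.Iic B} ×ˢ
      (Set.Iic c ×ˢ (Set.univ : Set (Fin M.k → SignType)))) := fun n hn =>
    Set.mem_prod.2 ⟨fun j => hB n hn j, Set.mem_prod.2 ⟨hrev n, Set.mem_univ _⟩⟩
  obtain ⟨n, hn, n', hn', hne, hF⟩ := hq'.exists_ne_map_eq_of_mapsTo hmaps hfin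
  have main : ∀ n n', n < n' → (x n).1 = q → (x n').1 = q → F n = F n' → False := by
    intro n n' hlt hn hn' hF
    simp only [F, Prod.mk.injEq] at hF
    obtain ⟨hF1, hF2, hF3⟩ := hF
    obtain ⟨l', c', h5, h6, h7, h8, h9⟩ := h2 n n le_rfl
    have h10 : word n' n ∈ M.LR c := by
      refine ⟨l n' ++ l', c', ?_, h6, h7, h8, ?_⟩
      · refine comp_append (comp_of_cross (hx n') (List.replicate n false)) ?_
        rw [hn', ← hF1, ← hn]
        exact h5
      · rw [reversals_append] at h9 ⊢
        rw [← hF2]
        have : ∀ j, lastDir 0 ((l n').map fun m => m.change j) =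
            lastDir 0 ((l n).map fun m => m.change j) := fun j => (congrFun hF3 j).symm
        simp only [this]
        exact h9
    rw [hL] at h10
    obtain ⟨a, b, hab, hw⟩ := h10
    have h11 : (word n' n).count true = (word a b).count true := by rw [hw]
    have h12 : (word n' n).count false = (word a b).count false := by rw [hw]
    simp [word, List.count_append, List.count_replicate] at h11 h12
    omega
  rcases lt_or_gt_of_ne hne with h | h
  · exact main n n' h hn hn' hF
  · exact main n' n h hn' hn hF.symm

/-- For every `c ≥ 1` the languages `L_{Rc} (M)` of the deterministic quasi-realtime partially blind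
multicounter machines form a proper subclass of the languages `L_{Rc} (M)` of the deterministic
quasi-realtime multicounter machines. -/
theorem result : ∀ (e : Bool) (c : ℕ), 1 ≤ c → dPBlind e Bool c ⊂ dCounter e Bool c := by
  intro e c hc
  rw [Set.ssubset_iff_subset_ne]
  refine ⟨?_, fun h => ?_⟩
  · rintro L ⟨M, h1, -, h2, h3, h4⟩
    exact ⟨M, h1, h2, h3, h4⟩
  · have h1 : lang ∈ dCounter e Bool c :=
      ⟨M₀, M₀_deterministic, M₀_quasiRealtime, fun _ => M₀_noEndMoves, (M₀_LR hc).symm⟩
    rw [← h] at h1
    obtain ⟨M, h2, h3, h4, -, h5⟩ := h1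
    exact not_blind h2 h3 h4 c h5.symm

end Pool.Agent.Results.MP_24384b_lc.DetBlind
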